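import Pool.Agent.R904.TR.Main

/-!
# Bass's conjecture and trilinear forms
-/

set_option autoImplicit false

open CategoryTheory CategoryTheory.Limits AlgebraicGeometry MvPolynomial
open Pool.Agent.R904.CU Pool.Agent.Y116.UV Pool.Agent.Z125.UN

namespace Pool.Agent.R904.TR

theorem poly_eq {A : Type} [CommRing A] {m : ℕ} (f : Fin m → A) :
    poly f = ∑ l, C (f l) * X l - 1 := by
  unfold poly
  rw [Finset.sum_congr rfl fun l _ => mul_comm (X l) (C (f l))]

theorem regular_jou {A : Type} [CommRing A] [IsRegularRing A] {m : ℕ} (f : Fin m → A) :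
    IsRegularScheme (Spec (.of (Jou f))) := by
  have h1 := isRegularScheme_ring1 f
  unfold Ring1 at h1
  rw [poly_eq] at h1
  exact h1

/-- the hypersurface `T(x, y, z) = 1` over a regular ring is regular -/
theorem regular_hyp {R : Type} [CommRing R] [IsRegularRing R] {a b c : ℕ}
    (T : Fin a → Fin b → Fin c → R) : IsRegularScheme (hypS T).left := by
  have h3 : IsRegularScheme (aff R (Jou fun i => bil (Fin b) (Fin c) (T i))).left :=
    regular_jou _
  exact isRegularScheme_iso ((Over.forget _).mapIso (affIso (hypEquiv T)).symm) h3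

theorem dim_spec (R : Type) [CommRing R] :
    topologicalKrullDim (Spec (.of R) : Scheme.{0}) = ringKrullDim R :=
  PrimeSpectrum.topologicalKrullDim_eq_ringKrullDim R

theorem dim_int : ringKrullDim ℤ ≤ 1 :=
  (IsPrincipalIdealRing.ringKrullDim_eq_one ℤ Int.not_isField).le

variable (K : KThy)

/-- rings of dimension at most one -/
theorem fin_dim_one (R : Type) [CommRing R] [hR : Algebra.FiniteType ℤ R]
    (h : ringKrullDim R ≤ 1) : K.Fin (Spec (.of R)) := by
  intro n
  refine K.curves n _ (toInt R) ⟨ft_toInt, ?_⟩ ?_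
  · unfold toInt
    infer_instance
  · rw [dim_spec]
    exact h

/-- Bass's conjecture and trilinear forms with coefficients `0` and `1` -/
theorem bass_iff : K.Bass ↔ K.ZeroOne := by
  constructor
  · intro h a b c T _
    have hT : FT False (hypS T) := ft_aff False
    exact h _ _ (ft_int hT) (regular_hyp T)
  · intro h X f hf _
    have hX : FT False (Over.mk f : Sch ℤ) := ⟨hf.1, hf.2, fun h => h.elim⟩
    exact universal (R := ℤ) (S := {0, 1}) (bnd K False (fin_dim_one K ℤ dim_int)).toUni
      (Or.inl rfl) (Or.inr rfl) (fun a b c T hT => h a b c T fun i j k => hT i j k)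
      (presents_zero_one fun x => ⟨x, rfl⟩) (Over.mk f) hX

section field

variable (k : Type) [Field k] [Finite k]

instance : Algebra.FiniteType ℤ k :=
  have : Module.Finite ℤ k := Module.Finite.of_finite
  inferInstance

theorem fin_field : K.Fin (Spec (.of k)) :=
  fin_dim_one K k (by rw [ringKrullDim_eq_zero_of_field]; exact zero_le_one)

/-- smooth schemes of dimension at most `d` over a finite field and trilinear forms -/
theorem dim_iff (d : ℕ) :
    ((∀ X : Sch k, FT True X → Smooth X.hom → topologicalKrullDim X.left ≤ d → K.Fin X.left) ↔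
      ∀ (a b c : ℕ) (T : Fin a → Fin b → Fin c → k), (a ≤ d + 2 ∨ b ≤ d + 2 ∨ c ≤ d + 2) →
        K.Fin (hypS T).left) ∧
    ((∀ X : Sch k, FT True X → Smooth X.hom → topologicalKrullDim X.left ≤ d → K.Fin X.left) ↔
      ∀ X : Sch k, FT True X → topologicalKrullDim X.left ≤ d → K.Fin X.left) := by
  have hB := bnd K True (fin_field K k)
  have hs : (∀ X : Sch k, FT True X → Smooth X.hom → topologicalKrullDim X.left ≤ d →
      K.Fin X.left) → ∀ X : Sch k, FT True X → topologicalKrullDim X.left ≤ d → K.Fin X.left :=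
    fun h => dim_smooth hB d fun X hX hs hn => h X hX hs hn
  refine ⟨⟨fun h a b c T hm => ?_, fun h X hX _ hn => ?_⟩, hs, fun h X hX _ hn => h X hX hn⟩
  · have h2 : ∀ I : Ideal (MvPolynomial (Fin (d + 1)) k),
        K.Fin (aff k (MvPolynomial (Fin (d + 1)) k ⧸ I)).left :=
      dim_to_closed hB fun A _ _ _ hA => hs h _ (ft_aff True) (by rw [topDim_aff]; exact hA)
    exact of_block hB (fun a b c' hc' T => to_tri hB h2 a b c' hc' T) T hm
  · exact (dim_tri hB d).mpr (fun a b T => h a b (d + 2) T (Or.inr (Or.inr le_rfl))) X hX hn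

/-- trilinear forms over a finite field with a block of at most three variables -/
theorem three {a b c : ℕ} (T : Fin a → Fin b → Fin c → k) (h : a ≤ 3 ∨ b ≤ 3 ∨ c ≤ 3) :
    K.Fin (hypS T).left := by
  refine (dim_iff K k 1).1.mp (fun X hX _ hn n => ?_) a b c T h
  exact K.curves n _ _ (ft_int hX) (by exact_mod_cast hn)

end field

theorem dim_quot_poly (R : Type) [CommRing R] [IsDomain R] [IsNoetherianRing R]
    (h : ringKrullDim R ≤ 1) (I : Ideal (MvPolynomial (Fin 1) R)) (hI : I ≠ ⊥) :
    ringKrullDim (MvPolynomial (Fin 1) R ⧸ I) ≤ 1 := by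
  obtain ⟨f, hf, hf0⟩ := Submodule.exists_mem_ne_zero_of_ne_bot hI
  have h1 : ringKrullDim (MvPolynomial (Fin 1) R ⧸ Ideal.span {f}) + 1 ≤
      ringKrullDim (MvPolynomial (Fin 1) R) :=
    ringKrullDim_quotient_succ_le_of_nonZeroDivisor (mem_nonZeroDivisors_of_ne_zero hf0)
  rw [MvPolynomial.ringKrullDim_of_isNoetherianRing, Nat.card_eq_fintype_card,
    Fintype.card_fin] at h1
  have h2 : ringKrullDim (MvPolynomial (Fin 1) R ⧸ I) ≤
      ringKrullDim (MvPolynomial (Fin 1) R ⧸ Ideal.span {f}) := by
    have hle : Ideal.span {f} ≤ I := by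
      rw [Ideal.span_le, Set.singleton_subset_iff]
      exact hf
    exact ringKrullDim_le_of_surjective (Ideal.Quotient.factor hle)
      (Ideal.Quotient.factor_surjective hle)
  refine h2.trans ?_
  have h3 : ringKrullDim (MvPolynomial (Fin 1) R ⧸ Ideal.span {f}) + 1 ≤ ((2 : ℕ) : WithBot ℕ∞) := by
    refine h1.trans ?_
    calc ringKrullDim R + ((1 : ℕ) : WithBot ℕ∞) ≤ 1 + ((1 : ℕ) : WithBot ℕ∞) :=
          add_le_add_left h _
      _ = ((2 : ℕ) : WithBot ℕ∞) := by norm_num
  rw [ENat.WithBot.add_one_le_natCast_iff] at h3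
  have h4 : ((2 : ℕ) : WithBot ℕ∞) = ((1 : ℕ) : WithBot ℕ∞) + 1 := by norm_num
  rw [h4] at h3
  exact_mod_cast ENat.WithBot.lt_add_one_iff.mp h3

/-- trilinear forms over a domain of dimension at most one with a block of at most two variables -/
theorem two (R : Type) [CommRing R] [IsDomain R] [hR : Algebra.FiniteType ℤ R]
    (h : ringKrullDim R ≤ 1) {a b c : ℕ} (T : Fin a → Fin b → Fin c → R)
    (hm : a ≤ 2 ∨ b ≤ 2 ∨ c ≤ 2) : K.Fin (hypS T).left := by
  have hN : IsNoetherianRing R := Algebra.FiniteType.isNoetherianRing ℤ R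
  have hB := bnd K False (fin_dim_one K R h)
  have hA : ∀ I : Ideal (MvPolynomial (Fin 1) R),
      K.Fin (aff R (MvPolynomial (Fin 1) R ⧸ I)).left := by
    intro I
    by_cases hI : I = ⊥
    · subst hI
      exact iso_alg hB.toUni (AlgEquiv.quotientBot R _).symm (hB.space 1)
    · have := ft_trans (R := R) (MvPolynomial (Fin 1) R ⧸ I)
      exact fin_dim_one K _ (dim_quot_poly R h I hI)
  exact of_block hB (fun a b c' hc' T => to_tri hB hA a b c' hc' T) T hm

end Pool.Agent.R904.TR
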