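import Pool.Agent.R904.CU.Regular
import Pool.Agent.Z125.UN.Sym
import Pool.Agent.Y116.UV.Graph

/-!
# K'-theory of schemes of finite type over `ℤ`, formally, with the case of dimension one
-/

set_option autoImplicit false

open CategoryTheory CategoryTheory.Limits AlgebraicGeometry MvPolynomial
open Pool.Agent.R904.CU Pool.Agent.Y116.UV Pool.Agent.Z125.UN

namespace Pool.Agent.R904.TR

/-- the affine scheme of a ring -/
noncomputable abbrev sp (A : Type) [CommRing A] : Scheme.{0} := Spec (.of A)

/-- the spectrum of `A[w] / (∑ f_l w_l - 1)`, an affine bundle over the complement of `f = 0`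
(Jouanolou) -/
noncomputable abbrev jouS {A : Type} [CommRing A] {m : ℕ} (f : Fin m → A) : Scheme.{0} :=
  Spec (.of (Jou f))

/-- the spectrum of `A[t, 1/t]` -/
noncomputable abbrev laurS (A : Type) [CommRing A] : Scheme.{0} := Spec (.of (LaurentPolynomial A))

/-- `j` is an open immersion onto the complement of `f = 0` -/
def IsCompl {A : Type} [CommRing A] {m : ℕ} (f : Fin m → A) {U : Scheme.{0}} (j : U ⟶ sp A) : Prop :=
  IsOpenImmersion j ∧ Set.range j = {x : PrimeSpectrum A | ∃ l, f l ∉ x.asIdeal}

/-- The exact sequence `G_{n+1}(X) → G_{n+1}(U) → G_n(Z) → G_n(X) → G_n(U)`; the last map is surjective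
for `n = 0`. -/
def LocSeq (G : ℕ → Scheme.{0} → Type) (grp : ∀ (n : ℕ) (X : Scheme.{0}), AddCommGroup (G n X))
    (X Z U : Scheme.{0}) : Prop :=
  ∃ (a : ∀ n, G n Z →+ G n X) (b : ∀ n, G n X →+ G n U) (d : ∀ n, G (n + 1) U →+ G n Z),
    (∀ n, Function.Exact (a n) (b n)) ∧ (∀ n, Function.Exact (b (n + 1)) (d n)) ∧
    (∀ n, Function.Exact (d n) (a n)) ∧ Function.Surjective (b 0)

/-- The properties of Quillen's groups `K'_n(X)` of schemes of finite type over `ℤ` which are used. -/
structure KThy where
  /-- the group `K'_n(X)` -/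
  G : ℕ → Scheme.{0} → Type
  /-- its group structure -/
  grp : ∀ (n : ℕ) (X : Scheme.{0}), AddCommGroup (G n X)
  /-- isomorphic schemes have isomorphic groups -/
  iso : ∀ (n : ℕ) (X Y : Scheme.{0}), (X ≅ Y) → Nonempty (G n X ≃+ G n Y)
  /-- the localization sequence of a closed subscheme `Z` with open complement `U` -/
  localization : ∀ (X Z U : Scheme.{0}) (f : X ⟶ Spec (.of ℤ)) (i : Z ⟶ X) (j : U ⟶ X),
    FinType ℤ X f → IsClosedImmersion i → IsOpenImmersion j → Set.range i = (Set.range j)ᶜ →
    LocSeq G grp X Z U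
  /-- homotopy invariance for the affine bundles of Jouanolou -/
  bundle : ∀ (n : ℕ) (A : Type) [CommRing A] [Algebra.FiniteType ℤ A] (m : ℕ) (f : Fin m → A)
    (U : Scheme.{0}) (j : U ⟶ sp A), IsCompl f j → Nonempty (G n U ≃+ G n (jouS f))
  /-- the fundamental theorem: `K'_{n+1}(A[t, 1/t]) = K'_{n+1}(A) ⊕ K'_n(A)` -/
  laurent : ∀ (n : ℕ) (A : Type) [CommRing A] [Algebra.FiniteType ℤ A],
    Nonempty (G (n + 1) (laurS A) ≃+ G (n + 1) (sp A) × G n (sp A))
  /-- finite generation in dimension at most one (Quillen, Harder) -/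
  curves : ∀ (n : ℕ) (X : Scheme.{0}) (f : X ⟶ Spec (.of ℤ)), FinType ℤ X f →
    topologicalKrullDim X ≤ 1 → AddGroup.FG (G n X)

attribute [instance] KThy.grp

/-- all groups `K'_n(X)` are finitely generated -/
def KThy.Fin (K : KThy) (X : Scheme.{0}) : Prop := ∀ n : ℕ, AddGroup.FG (K.G n X)

/-- Bass's conjecture: for every regular scheme `X` of finite type over `ℤ` and every `n` the group
`K'_n(X)` is finitely generated. -/
def KThy.Bass (K : KThy) : Prop := ∀ (X : Scheme.{0}) (f : X ⟶ Spec (.of ℤ)), FinType ℤ X f →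
  IsRegularScheme X → K.Fin X

/-- The groups of the hypersurfaces `T(x, y, z) = 1` over `ℤ` are finitely generated, for all trilinear
forms `T` with coefficients `0` and `1`. -/
def KThy.ZeroOne (K : KThy) : Prop :=
  ∀ (a b c : ℕ) (T : _root_.Fin a → _root_.Fin b → _root_.Fin c → ℤ),
    (∀ i j k, T i j k = 0 ∨ T i j k = 1) → K.Fin (hypS T).left

/-- The groups of the smooth separated schemes of finite type over `k` and of dimension at most `d` are
finitely generated. -/
def KThy.SmoothDim (K : KThy) (k : Type) [Field k] (d : ℕ) : Prop :=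
  ∀ X : Sch k, FT True X → Smooth X.hom → topologicalKrullDim X.left ≤ d → K.Fin X.left

/-- The groups of the hypersurfaces `T(x, y, z) = 1` over `R` are finitely generated, for all trilinear
forms `T` over `R` such that one of the three blocks of variables has at most `m` variables. -/
def KThy.Block (K : KThy) (R : Type) [CommRing R] (m : ℕ) : Prop :=
  ∀ (a b c : ℕ) (T : _root_.Fin a → _root_.Fin b → _root_.Fin c → R), (a ≤ m ∨ b ≤ m ∨ c ≤ m) →
    K.Fin (hypS T).left

end Pool.Agent.R904.TR
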