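import Pool.Agent.R904.TR.Defs
import Pool.Agent.R904.CU.KMain

/-!
# Finite generation of K'-groups has the closure properties `Bnd`
-/

set_option autoImplicit false

open CategoryTheory CategoryTheory.Limits AlgebraicGeometry MvPolynomial
open Pool.Agent.R904.CU Pool.Agent.Y116.UV Pool.Agent.Z125.UN

namespace Pool.Agent.R904.TR

section

variable {R : Type} [CommRing R] [hR : Algebra.FiniteType ℤ R]

/-- the structure morphism to `Spec ℤ` -/
noncomputable def toInt (R : Type) [CommRing R] : Spec (.of R) ⟶ Spec (.of ℤ) :=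
  Spec.map (CommRingCat.ofHom (algebraMap ℤ R))

include hR

theorem ft_toInt : LocallyOfFiniteType (toInt R) := by
  unfold toInt
  rw [HasRingHomProperty.Spec_iff (P := @LocallyOfFiniteType)]
  exact RingHom.finiteType_algebraMap.mpr hR

theorem ft_int {sep : Prop} {X : Sch R} (h : FT sep X) : FinType ℤ X.left (X.hom ≫ toInt R) := by
  have h1 := h.locallyOfFiniteType
  have h2 := h.quasiCompact
  have h3 := ft_toInt (R := R)
  have h4 : QuasiCompact (toInt R) := by
    unfold toInt
    infer_instance
  have e : Spec (CommRingCat.of R) = (Functor.fromPUnit (Spec (CommRingCat.of R))).obj X.right := rfl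
  constructor
  · exact MorphismProperty.comp_mem _ X.hom (toInt R) h1 h3
  · exact MorphismProperty.comp_mem _ X.hom (toInt R) h2 h4

theorem ft_trans (A : Type) [CommRing A] [Algebra R A] [Algebra.FiniteType R A] :
    Algebra.FiniteType ℤ A := Algebra.FiniteType.trans (S := R) inferInstance inferInstance

variable (K : KThy) (sep : Prop)

theorem bnd (h0 : K.Fin (Spec (.of R))) : Bnd sep fun X : Sch R => K.Fin X.left where
  iso {X Y} h e hX n := by
    obtain ⟨e⟩ := e
    exact fg_equiv (K.iso n _ _ ((Over.forget _).mapIso e)) (hX n)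
  total {Z X U} i j h ht hZ hU n := by
    obtain ⟨a, b, d, h1, h2, h3, -⟩ := K.localization X.left Z.left U.left _ i.left j.left
      (ft_int h) ht.closed ht.opened ht.compl
    exact fg_exact (a n) (b n) (h1 n) (hZ n) (hU n)
  opened {Z X U} i j h ht hZ hX n := by
    obtain ⟨a, b, d, h1, h2, h3, h4⟩ := K.localization X.left Z.left U.left _ i.left j.left
      (ft_int h) ht.closed ht.opened ht.compl
    cases n with
    | zero =>
      have := hX 0
      exact AddGroup.fg_of_surjective h4
    | succ n => exact fg_exact (b (n + 1)) (d n) (h2 n) (hX (n + 1)) (hZ n)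
  closed {Z X U} i j h ht hX hU n := by
    obtain ⟨a, b, d, h1, h2, h3, -⟩ := K.localization X.left Z.left U.left _ i.left j.left
      (ft_int h) ht.closed ht.opened ht.compl
    exact fg_exact (d n) (a n) (h3 n) (hU (n + 1)) (hX n)
  space m n := by
    have h1 := K.bundle n R (m + 1) (f1 R m) (Spec (.of R)) (𝟙 _) ⟨inferInstance, range_id m⟩
    have h2 := fg_equiv h1 (h0 n)
    exact fg_equiv (K.iso n _ _ ((Over.forget _).mapIso (affIso (jouOne R m)).symm)) h2
  jouanolou A _ _ _ m f U j hj hr h n := by
    have := ft_trans (R := R) A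
    obtain ⟨e⟩ := K.bundle n A m f U.left j.left ⟨hj, hr⟩
    exact fg_equiv ⟨e.symm⟩ (h n)
  torus A _ _ _ h n := by
    have := ft_trans (R := R) A
    obtain ⟨e⟩ := K.laurent n A
    have h1 : AddGroup.FG (K.G (n + 1) (Spec (.of (LaurentPolynomial A)))) := h (n + 1)
    refine AddGroup.fg_of_surjective (f := (AddMonoidHom.snd (K.G (n + 1) (Spec (.of A)))
      (K.G n (Spec (.of A)))).comp e.toAddMonoidHom) (fun y => ⟨e.symm (0, y), ?_⟩)
    change (e (e.symm (0, y))).2 = y
    rw [e.apply_symm_apply]
  bundle A _ _ _ m f U j hj hr h n := by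
    have := ft_trans (R := R) A
    exact fg_equiv (K.bundle n A m f U.left j.left ⟨hj, hr⟩) (h n)

end

end Pool.Agent.R904.TR
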